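import Pool.Agent.ODn.Loc

set_option autoImplicit false

namespace Pool.Agent.ODx

open Finset Pool.Agent.ODn

variable {K : Type*} [Field K] [Fintype K] [DecidableEq K]

-- BEGIN tr
/-- The polynomial with coefficient vector `c`. -/
private noncomputable def tr_P {d : ℕ} (c : Fin (d + 1) → K) : Polynomial K :=
  ∑ i : Fin (d + 1), Polynomial.monomial (i : ℕ) (c i)

omit [Fintype K] [DecidableEq K] in
private theorem tr_eval {d : ℕ} (c : Fin (d + 1) → K) (x : K) :
    (tr_P c).eval x = ev c x := by
  simp [tr_P, ev, Polynomial.eval_finsetSum]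

omit [Fintype K] [DecidableEq K] in
private theorem tr_coeff {d : ℕ} (c : Fin (d + 1) → K) (i : Fin (d + 1)) :
    (tr_P c).coeff i = c i := by
  unfold tr_P
  rw [Polynomial.finsetSum_coeff]
  simp only [Polynomial.coeff_monomial]
  rw [Finset.sum_eq_single i]
  · simp
  · intro j _ hj
    rw [if_neg]
    intro h
    exact hj (Fin.ext h)
  · simp

omit [Fintype K] [DecidableEq K] in
private theorem tr_deg {d : ℕ} (c : Fin (d + 1) → K) : (tr_P c).natDegree ≤ d := by
  unfold tr_P
  refine Polynomial.natDegree_sum_le_of_forall_le (n := d) univ (fun i : Fin (d + 1) =>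
    Polynomial.monomial (i : ℕ) (c i)) fun i _ => ?_
  exact (Polynomial.natDegree_monomial_le _).trans (Nat.lt_succ_iff.1 i.2)

omit [Fintype K] [DecidableEq K] in
private theorem tr_ext {d : ℕ} (P : Polynomial K) (hP : P.natDegree ≤ d) :
    tr_P (fun i : Fin (d + 1) => P.coeff i) = P := by
  ext j
  by_cases hj : j < d + 1
  · exact tr_coeff (fun i : Fin (d + 1) => P.coeff i) ⟨j, hj⟩
  · rw [Polynomial.coeff_eq_zero_of_natDegree_lt, Polynomial.coeff_eq_zero_of_natDegree_lt]
    · omega
    · have := tr_deg (fun i : Fin (d + 1) => P.coeff i)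
      omega

/-- The translated polynomial. -/
private noncomputable def tr_Q {d : ℕ} (a : K) (c : Fin (d + 1) → K) : Polynomial K :=
  Polynomial.C a + (tr_P c).comp (Polynomial.X - Polynomial.C a)

omit [Fintype K] [DecidableEq K] in
private theorem tr_Q_deg {d : ℕ} (a : K) (c : Fin (d + 1) → K) :
    (tr_Q a c).natDegree ≤ d := by
  unfold tr_Q
  have h2 : ((tr_P c).comp (Polynomial.X - Polynomial.C a) : Polynomial K).natDegree ≤ d := by
    refine Polynomial.natDegree_comp_le.trans ?_
    calc _ ≤ d * 1 := Nat.mul_le_mul (tr_deg c) (Polynomial.natDegree_X_sub_C_le _)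
      _ = d := by omega
  refine (Polynomial.natDegree_add_le _ _).trans ?_
  rw [Polynomial.natDegree_C, max_le_iff]
  exact ⟨by omega, h2⟩

/-- The translated coefficient vector. -/
private noncomputable def tr_T {d : ℕ} (a : K) (c : Fin (d + 1) → K) : Fin (d + 1) → K :=
  fun i => (tr_Q a c).coeff i

omit [Fintype K] [DecidableEq K] in
private theorem tr_T_ev {d : ℕ} (a : K) (c : Fin (d + 1) → K) (x : K) :
    ev (tr_T a c) x = a + ev c (x - a) := by
  rw [← tr_eval]
  unfold tr_T
  rw [tr_ext _ (tr_Q_deg a c)]
  unfold tr_Q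
  rw [← tr_eval c]
  simp [Polynomial.eval_comp]

omit [Fintype K] [DecidableEq K] in
private theorem tr_T_it {d : ℕ} (a x : K) (c : Fin (d + 1) → K) (n : ℕ) :
    it (tr_T a c) x n = a + it c (x - a) n := by
  induction n with
  | zero => simp [it]
  | succ n ih =>
    rw [it_succ, it_succ, ih, tr_T_ev]
    rw [add_sub_cancel_left]

omit [Fintype K] [DecidableEq K] in
private theorem tr_T_inj {d : ℕ} (a : K) :
    Function.Injective (tr_T a : (Fin (d + 1) → K) → Fin (d + 1) → K) := by
  intro c c' h
  have h1 : tr_Q a c = tr_Q a c' := by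
    rw [← tr_ext _ (tr_Q_deg a c), ← tr_ext _ (tr_Q_deg a c')]
    exact congrArg tr_P h
  unfold tr_Q at h1
  have h2 := add_left_cancel h1
  have h3 : ∀ P : Polynomial K,
      (P.comp (Polynomial.X - Polynomial.C a)).comp (Polynomial.X + Polynomial.C a) = P := by
    intro P
    rw [Polynomial.comp_assoc]
    have : (Polynomial.X - Polynomial.C a).comp (Polynomial.X + Polynomial.C a) =
        Polynomial.X := by
      simp only [Polynomial.sub_comp, Polynomial.C_comp, Polynomial.X_comp, add_sub_cancel_right]
    rw [this, Polynomial.comp_X]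
  have h4 : tr_P c = tr_P c' := by
    rw [← h3 (tr_P c), ← h3 (tr_P c')]
    exact congrArg (fun P => Polynomial.comp P _) h2
  funext i
  rw [← tr_coeff c i, ← tr_coeff c' i, h4]

/-- Translation: the chance that `f^n(a) = a` does not depend on `a`. Proof: `f ↦ a + f(x - a)` is a
bijection of the polynomials of degree at most `d` and carries `f^n(0)` to `f^n(0) + a`; copy the
private block `conj_*` of `ODn/Loc.lean` with `C a + (conj_P c).comp (X - C a)` in place of
`conj_Q`. -/
theorem tr {d : ℕ} (a : K) (n : ℕ) :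
    (univ.filter fun c : Fin (d + 1) → K => it c a n = a).card
      = (univ.filter fun c : Fin (d + 1) → K => it c 0 n = 0).card := by
  refine le_antisymm ?_ ?_
  · refine Finset.card_le_card_of_injOn (tr_T (-a)) ?_ ((tr_T_inj (-a)).injOn)
    intro c hc
    simp only [Finset.coe_filter, Finset.mem_univ, true_and, Set.mem_ofPred_eq] at hc ⊢
    rw [tr_T_it, sub_neg_eq_add, zero_add, hc, neg_add_cancel]
  · refine Finset.card_le_card_of_injOn (tr_T a) ?_ ((tr_T_inj a).injOn)
    intro c hc
    simp only [Finset.coe_filter, Finset.mem_univ, true_and, Set.mem_ofPred_eq] at hc ⊢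
    rw [tr_T_it, sub_self, hc, add_zero]
-- END tr

-- BEGIN gl
/-- `P(f^n(a) = 0) ≥ (1 - h)/q`, `h = P(f^n(0) = 0)`. Proof: `a ≠ 0`: the fibres over `b ≠ a` all have
the size `Z` of the fibre over `0` (`conj`), so `q^(d+1) = A + (q-1) Z` with `A` the fibre over `a`,
`tr` (as in `ODn.loc`). `a = 0`: `f(0) = 0` suffices, `fib` with `k = 1` gives `q^(d+1) ≤ q Z`. -/
theorem gl {d : ℕ} (a : K) (n : ℕ) :
    Fintype.card K ^ (d + 1)
      ≤ (univ.filter fun c : Fin (d + 1) → K => it c 0 n = 0).card
        + Fintype.card K * (univ.filter fun c : Fin (d + 1) → K => it c a n = 0).card := by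
  by_cases ha : a = 0
  · subst ha
    have hf := fib (K := K) (d := d) (k := 1) (by omega) (fun _ => 0)
      (fun i j _ => Subsingleton.elim i j) (fun _ => 0)
    have hsub : (univ.filter fun c : Fin (d + 1) → K => ∀ _ : Fin 1, ev c (0 : K) = 0).card ≤
        (univ.filter fun c : Fin (d + 1) → K => it c 0 n = 0).card := by
      apply Finset.card_le_card
      intro c hc
      simp only [mem_filter, mem_univ, true_and] at hc ⊢
      have h0 : ev c (0 : K) = 0 := hc 0
      have h1 : ∀ k : ℕ, it c (0 : K) k = 0 := by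
        intro k
        induction k with
        | zero => rfl
        | succ k ih => rw [it_succ, ih, h0]
      exact h1 _
    rw [pow_one] at hf
    rw [← hf, mul_comm (Finset.card _)]
    exact (Nat.mul_le_mul_left _ hsub).trans (Nat.le_add_left _ _)
  · have hsum : Fintype.card K ^ (d + 1) =
        ∑ b : K, (univ.filter fun c : Fin (d + 1) → K => it c a n = b).card := by
      have h1 := Finset.card_eq_sum_card_fiberwise (f := fun c : Fin (d + 1) → K => it c a n)
        (s := univ) (t := (univ : Finset K)) (fun _ _ => by simp)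
      rw [← h1, Finset.card_univ, Fintype.card_fun, Fintype.card_fin]
    have hsplit : ∑ b : K, (univ.filter fun c : Fin (d + 1) → K => it c a n = b).card =
        (univ.filter fun c : Fin (d + 1) → K => it c a n = a).card +
        (Fintype.card K - 1) * (univ.filter fun c : Fin (d + 1) → K => it c a n = 0).card := by
      rw [← Finset.add_sum_erase univ _ (mem_univ a)]
      congr 1
      rw [Finset.sum_congr rfl (g := fun _ =>
        (univ.filter fun c : Fin (d + 1) → K => it c a n = 0).card), Finset.sum_const,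
        Finset.card_erase_of_mem (mem_univ a), Finset.card_univ, smul_eq_mul]
      intro b hb
      exact conj a b 0 (Finset.ne_of_mem_erase hb) (fun h => ha h.symm) n
    rw [hsum, hsplit, tr a n]
    exact Nat.add_le_add_left (Nat.mul_le_mul_right _ (Nat.sub_le _ _)) _
-- END gl

-- BEGIN low
/-- At most `q^2` vectors have all coordinates of index `≥ 2` equal to zero. -/
theorem low {d : ℕ} (hd : 2 ≤ d) :
    (univ.filter fun c : Fin (d + 1) → K =>
        ∀ i : Fin (d + 1), 2 ≤ (i : ℕ) → c i = 0).card * Fintype.card K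
      ≤ Fintype.card K ^ (d + 1) := by
  have h1 : (univ.filter fun c : Fin (d + 1) → K =>
      ∀ i : Fin (d + 1), 2 ≤ (i : ℕ) → c i = 0).card ≤ (univ : Finset (Fin 2 → K)).card := by
    refine Finset.card_le_card_of_injOn (fun c j => c ⟨j, by omega⟩) (fun _ _ => mem_univ _) ?_
    intro c hc c' hc' h
    have hc1 := (Finset.mem_filter.1 (Finset.mem_coe.1 hc)).2
    have hc2 := (Finset.mem_filter.1 (Finset.mem_coe.1 hc')).2
    funext i
    by_cases hi : 2 ≤ (i : ℕ)
    · rw [hc1 i hi, hc2 i hi]
    · exact congrFun h ⟨(i : ℕ), by omega⟩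
  rw [Finset.card_univ, Fintype.card_fun, Fintype.card_fin] at h1
  calc _ ≤ Fintype.card K ^ 2 * Fintype.card K := Nat.mul_le_mul_right _ h1
    _ = Fintype.card K ^ 3 := by ring
    _ ≤ _ := Nat.pow_le_pow_right Fintype.card_pos (by omega)
-- END low

-- BEGIN root
/-- If some coefficient of index `≥ 2` is nonzero, `f^l(x) = x` has at most `d^l` solutions. Proof:
`f^l(X)` is a polynomial of degree `(deg f)^l ≥ 2` and at most `d^l` (`Polynomial.iterate_comp_eval`,
`Polynomial.natDegree_iterate_comp`), so `f^l(X) - X` is nonzero of degree at most `d^l`. -/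
theorem root {d l : ℕ} (hl : 1 ≤ l) (c : Fin (d + 1) → K)
    (hc : ∃ i : Fin (d + 1), 2 ≤ (i : ℕ) ∧ c i ≠ 0) :
    (univ.filter fun x : K => it c x l = x).card ≤ d ^ l := by
  classical
  obtain ⟨i, hi, hci⟩ := hc
  set P : Polynomial K := ∑ j : Fin (d + 1), Polynomial.C (c j) * Polynomial.X ^ (j : ℕ) with hP
  have hev : ∀ x, P.eval x = ev c x := by
    intro x
    rw [hP, Polynomial.eval_finsetSum]
    unfold ev
    exact Finset.sum_congr rfl fun j _ => by simp
  have hdeg : P.natDegree ≤ d := by
    rw [hP]
    refine Polynomial.natDegree_sum_le_of_forall_le _ _ fun j _ => ?_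
    exact (Polynomial.natDegree_C_mul_X_pow_le _ _).trans (Nat.lt_succ_iff.1 j.2)
  have hcoef : P.coeff i = c i := by
    rw [hP, Polynomial.finsetSum_coeff]
    simp only [Polynomial.coeff_C_mul, Polynomial.coeff_X_pow]
    rw [Finset.sum_eq_single i]
    · simp
    · intro j _ hj
      rw [if_neg (fun h => hj (Fin.ext h.symm)), mul_zero]
    · intro h
      exact absurd (Finset.mem_univ i) h
  have h2 : 2 ≤ P.natDegree := by
    refine hi.trans (Polynomial.le_natDegree_of_ne_zero ?_)
    rw [hcoef]
    exact hci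
  set Q : Polynomial K := P.comp^[l] Polynomial.X with hQ
  have hQd : Q.natDegree = P.natDegree ^ l := by
    rw [hQ, Polynomial.natDegree_iterate_comp, Polynomial.natDegree_X, mul_one]
  have hQe : ∀ x, Q.eval x = it c x l := by
    intro x
    rw [hQ, Polynomial.iterate_comp_eval, Polynomial.eval_X]
    unfold it
    rw [show (fun x => P.eval x) = ev c from funext hev]
  have hQ2 : 2 ≤ Q.natDegree := by
    rw [hQd]
    exact h2.trans (Nat.le_self_pow (by omega) _)
  have hne : Q - Polynomial.X ≠ 0 := by
    intro h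
    rw [sub_eq_zero] at h
    rw [h, Polynomial.natDegree_X] at hQ2
    omega
  have hle : (Q - Polynomial.X).natDegree ≤ d ^ l := by
    refine (Polynomial.natDegree_sub_le _ _).trans (max_le ?_ ?_)
    · rw [hQd]
      exact Nat.pow_le_pow_left hdeg l
    · rw [Polynomial.natDegree_X]
      exact Nat.one_le_pow _ _ (by omega)
  calc (univ.filter fun x : K => it c x l = x).card
      ≤ (Q - Polynomial.X).roots.toFinset.card := by
        refine Finset.card_le_card fun x hx => ?_
        rw [Multiset.mem_toFinset, Polynomial.mem_roots hne, Polynomial.IsRoot.def,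
          Polynomial.eval_sub, Polynomial.eval_X, hQe, (Finset.mem_filter.1 hx).2, sub_self]
    _ ≤ Multiset.card (Q - Polynomial.X).roots := Multiset.toFinset_card_le _
    _ ≤ (Q - Polynomial.X).natDegree := Polynomial.card_roots' _
    _ ≤ d ^ l := hle
-- END root

-- BEGIN fix
/-- `q P(f^l(0) = 0) ≤ d^l + 1`. Proof: by `tr` the left side is the number of pairs `(c, x)` with
`it c x l = x`; for each `c` at most `d^l` of them (`root`) unless all coefficients of index `≥ 2`
vanish, then at most `q` (`low`). -/
theorem fix {d l : ℕ} (hd : 2 ≤ d) (hl : 1 ≤ l) :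
    (univ.filter fun c : Fin (d + 1) → K => it c 0 l = 0).card * Fintype.card K
      ≤ (d ^ l + 1) * Fintype.card K ^ (d + 1) := by
  classical
  have h1 : (univ.filter fun c : Fin (d + 1) → K => it c 0 l = 0).card * Fintype.card K
      = ∑ a : K, (univ.filter fun c : Fin (d + 1) → K => it c a l = a).card := by
    rw [Finset.sum_congr rfl (fun a _ => tr (d := d) a l), Finset.sum_const, Finset.card_univ,
      smul_eq_mul, mul_comm]
  have h2 : ∑ a : K, (univ.filter fun c : Fin (d + 1) → K => it c a l = a).card
      = ∑ c : Fin (d + 1) → K, (univ.filter fun x : K => it c x l = x).card := by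
    simp only [Finset.card_filter]
    rw [Finset.sum_comm]
  have h3 : ∀ c : Fin (d + 1) → K, (univ.filter fun x : K => it c x l = x).card
      ≤ d ^ l + if (∀ i : Fin (d + 1), 2 ≤ (i : ℕ) → c i = 0) then Fintype.card K else 0 := by
    intro c
    by_cases hc : ∀ i : Fin (d + 1), 2 ≤ (i : ℕ) → c i = 0
    · rw [if_pos hc]
      exact le_trans (Finset.card_le_univ _) (Nat.le_add_left _ _)
    · rw [if_neg hc]
      push Not at hc
      exact root hl c hc
  have h4 : ∑ c : Fin (d + 1) → K,
      (if (∀ i : Fin (d + 1), 2 ≤ (i : ℕ) → c i = 0) then Fintype.card K else 0)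
      = (univ.filter fun c : Fin (d + 1) → K =>
        ∀ i : Fin (d + 1), 2 ≤ (i : ℕ) → c i = 0).card * Fintype.card K := by
    rw [← Finset.sum_filter, Finset.sum_const, smul_eq_mul]
  have h5 : ∑ _c : Fin (d + 1) → K, d ^ l = d ^ l * Fintype.card K ^ (d + 1) := by
    rw [Finset.sum_const, Finset.card_univ, Fintype.card_fun, Fintype.card_fin, smul_eq_mul,
      mul_comm]
  rw [h1, h2]
  refine (Finset.sum_le_sum fun c _ => h3 c).trans ?_
  rw [Finset.sum_add_distrib, h4, h5, add_mul, one_mul]
  have h6 := low (K := K) hd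
  exact Nat.add_le_add_left (by convert h6) _
-- END fix

end Pool.Agent.ODx
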