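import Pool.Agent.ODn.Num
import Pool.Agent.MT.Mert

set_option autoImplicit false

namespace Pool.Agent.ODx

open Finset Pool.Agent.ODn

-- BEGIN per
private theorem per_mult (l M L : ℕ) (hl : 1 ≤ l) :
    ((Ico M (M + L)).filter fun n => l ∣ n).card ≤ L / l + 1 := by
  have h1 : ((Ico M (M + L)).filter fun n => l ∣ n).card ≤
      ((Icc ((M + l - 1) / l) ((M + l - 1) / l + L / l))).card := by
    refine Finset.card_le_card_of_injOn (fun n => n / l) ?_ ?_
    · intro n hn
      simp only [coe_filter, mem_Ico, Set.mem_ofPred_eq] at hn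
      simp only [coe_Icc, Set.mem_Icc]
      obtain ⟨⟨h1, h2⟩, k, rfl⟩ := hn
      rw [Nat.mul_div_cancel_left _ hl]
      constructor
      · rw [Nat.div_le_iff_le_mul_add_pred (by omega)]
        omega
      · have h3 : l * k ≤ M + L - 1 := by omega
        have h4 : k ≤ (M + L - 1) / l := by
          rw [Nat.le_div_iff_mul_le hl]; linarith [mul_comm l k]
        refine h4.trans ?_
        have h5 : (M + L - 1) / l ≤ (M + l - 1) / l + L / l := by
          have h6 : M + L - 1 < l * ((M + l - 1) / l + L / l + 1) := by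
            have a1 := Nat.div_add_mod (M + l - 1) l
            have a2 := Nat.mod_lt (M + l - 1) hl
            have a3 := Nat.div_add_mod L l
            have a4 := Nat.mod_lt L hl
            have : l * ((M + l - 1) / l + L / l + 1) = l * ((M + l - 1) / l) + l * (L / l) + l := by ring
            omega
          exact Nat.lt_succ_iff.1 (Nat.div_lt_of_lt_mul h6)
        exact h5
    · intro a ha b hb hab
      simp only [coe_filter, mem_Ico, Set.mem_ofPred_eq] at ha hb
      have h1 := Nat.div_mul_cancel ha.2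
      have h2 := Nat.div_mul_cancel hb.2
      have h3 : a / l = b / l := hab
      rw [← h1, ← h2, h3]
  refine h1.trans ?_
  rw [Nat.card_Icc]
  generalize (M + l - 1) / l = a
  generalize L / l = b
  omega

/-- If `x` has no period `l ≤ k` then `g^[n] x = x` for at most `L/k + 1` of the `n` in a window of
length `L`. Proof: the minimal period `l` of `x` divides all these `n ≥ 1` (`Function.IsPeriodicPt`,
`Function.IsPeriodicPt.minimalPeriod_dvd`), `l > k`, and a window of length `L` contains at most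
`L/l + 1` multiples of `l`. -/
theorem per {X : Type*} [DecidableEq X] (g : X → X) (x : X) (k M L : ℕ) (hk : 1 ≤ k) (hM : 1 ≤ M)
    (h : ∀ l, 1 ≤ l → l ≤ k → g^[l] x ≠ x) :
    ((Ico M (M + L)).filter fun n => g^[n] x = x).card ≤ L / k + 1 := by
  set l := Function.minimalPeriod g x with hl
  by_cases h0 : l = 0
  · have h1 : ((Ico M (M + L)).filter fun n => g^[n] x = x) = ∅ := by
      rw [Finset.filter_eq_empty_iff]
      intro n hn hx
      have h2 : l ∣ n := Function.IsPeriodicPt.minimalPeriod_dvd hx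
      rw [h0, zero_dvd_iff] at h2
      have := (mem_Ico.1 hn).1
      omega
    rw [h1]
    simp
  · have hl1 : 1 ≤ l := Nat.one_le_iff_ne_zero.2 h0
    have hlk : k < l := by
      by_contra hc
      exact h l hl1 (not_lt.1 hc) (Function.iterate_minimalPeriod)
    have h2 : ((Ico M (M + L)).filter fun n => g^[n] x = x).card ≤
        ((Ico M (M + L)).filter fun n => l ∣ n).card := by
      refine Finset.card_le_card fun n hn => ?_
      rw [mem_filter] at hn ⊢
      exact ⟨hn.1, Function.IsPeriodicPt.minimalPeriod_dvd hn.2⟩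
    refine h2.trans ((per_mult l M L hl1).trans ?_)
    exact Nat.add_le_add_right (Nat.div_le_div_left hlk.le hk) 1
-- END per

-- BEGIN two
private theorem two_id {m : ℕ} (hm : Squarefree m) (x : ℕ → ℝ) :
    (1 : ℝ) / m = ∑ ab ∈ m.divisorsAntidiagonal,
      (∏ p ∈ ab.1.primeFactors, x p / p) * ∏ p ∈ ab.2.primeFactors, (1 - x p) / p := by
  have h1 : (m : ℝ) = ∏ p ∈ m.primeFactors, (p : ℝ) := by
    have h0 := congrArg (fun n : ℕ => (n : ℝ)) (Nat.prod_primeFactors_of_squarefree hm)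
    simp only [Nat.cast_prod] at h0
    exact h0.symm
  have h := ArithmeticFunction.IsMultiplicative.prodPrimeFactors_add_of_squarefree
    (ArithmeticFunction.IsMultiplicative.prodPrimeFactors (fun p : ℕ => x p / (p : ℝ)))
    (ArithmeticFunction.IsMultiplicative.prodPrimeFactors (fun p : ℕ => (1 - x p) / (p : ℝ))) hm
  rw [ArithmeticFunction.prodPrimeFactors_apply hm.ne_zero, ArithmeticFunction.mul_apply] at h
  have h2 : ∀ p ∈ m.primeFactors,
      (ArithmeticFunction.prodPrimeFactors (fun p : ℕ => x p / (p : ℝ)) +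
        ArithmeticFunction.prodPrimeFactors (fun p : ℕ => (1 - x p) / (p : ℝ))) p =
        1 / (p : ℝ) := by
    intro p hp
    have hpp := Nat.prime_of_mem_primeFactors hp
    have h0 : (p : ℝ) ≠ 0 := by exact_mod_cast hpp.ne_zero
    rw [ArithmeticFunction.add_apply, ArithmeticFunction.prodPrimeFactors_apply hpp.ne_zero,
      ArithmeticFunction.prodPrimeFactors_apply hpp.ne_zero, hpp.primeFactors,
      Finset.prod_singleton, Finset.prod_singleton, ← add_div]
    congr 1
    ring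
  rw [Finset.prod_congr rfl h2, Finset.prod_div_distrib, Finset.prod_const_one, ← h1] at h
  rw [h]
  refine Finset.sum_congr rfl fun ab hab => ?_
  have h3 := Nat.ne_zero_of_mem_divisorsAntidiagonal hab
  rw [ArithmeticFunction.prodPrimeFactors_apply h3.1,
    ArithmeticFunction.prodPrimeFactors_apply h3.2]

/-- `S(x) S(1 - x) ≥ ∑ 1/m`. Proof: for squarefree `m`, `1/m = ∏ (x_p/p + (1 - x_p)/p)` is the sum over
`m = a b` of `∏_{p ∣ a} x_p/p ∏_{p ∣ b} (1 - x_p)/p` (`Finset.prod_add`, or `Nat.divisorsAntidiagonal`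
as in `cube`), and `(a, b) ↦ m` recovers `m = a b`. -/
theorem two (Q : ℕ) (x : ℕ → ℝ) (hx : ∀ p, p.Prime → 0 ≤ x p ∧ x p ≤ 1) :
    ∑ m ∈ sf Q, (1 : ℝ) / m
      ≤ (∑ m ∈ sf Q, ∏ p ∈ m.primeFactors, x p / p)
        * ∑ m ∈ sf Q, ∏ p ∈ m.primeFactors, (1 - x p) / p := by
  have hp1 : ∀ m : ℕ, (0 : ℝ) ≤ ∏ p ∈ m.primeFactors, x p / p := by
    intro m
    refine Finset.prod_nonneg fun p hp => ?_
    exact div_nonneg (hx p (Nat.prime_of_mem_primeFactors hp)).1 (Nat.cast_nonneg p)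
  have hp2 : ∀ m : ℕ, (0 : ℝ) ≤ ∏ p ∈ m.primeFactors, (1 - x p) / p := by
    intro m
    refine Finset.prod_nonneg fun p hp => ?_
    have := (hx p (Nat.prime_of_mem_primeFactors hp)).2
    exact div_nonneg (by linarith) (Nat.cast_nonneg p)
  have h1 : ∀ m ∈ sf Q, (1 : ℝ) / m = ∑ ab ∈ m.divisorsAntidiagonal,
      (∏ p ∈ ab.1.primeFactors, x p / p) * ∏ p ∈ ab.2.primeFactors, (1 - x p) / p := by
    intro m hm
    exact two_id (mem_filter.1 hm).2 x
  rw [Finset.sum_congr rfl h1, Finset.sum_mul_sum, ← Finset.sum_product', ← Finset.sum_biUnion]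
  · refine Finset.sum_le_sum_of_subset_of_nonneg ?_ ?_
    · intro ab hab
      rw [mem_biUnion] at hab
      obtain ⟨m, hm, hab⟩ := hab
      have hs : Squarefree m := (mem_filter.1 hm).2
      have hQ := mem_Icc.1 (mem_filter.1 hm).1
      obtain ⟨h2, h3⟩ := Nat.mem_divisorsAntidiagonal.1 hab
      have h4 := Nat.ne_zero_of_mem_divisorsAntidiagonal hab
      have hda : ab.1 ∣ m := ⟨ab.2, h2.symm⟩
      have hdb : ab.2 ∣ m := ⟨ab.1, by rw [mul_comm]; exact h2.symm⟩
      rw [mem_product]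
      exact ⟨mem_filter.2 ⟨mem_Icc.2 ⟨Nat.one_le_iff_ne_zero.2 h4.1,
        (Nat.le_of_dvd (by omega) hda).trans hQ.2⟩, hs.squarefree_of_dvd hda⟩,
        mem_filter.2 ⟨mem_Icc.2 ⟨Nat.one_le_iff_ne_zero.2 h4.2,
        (Nat.le_of_dvd (by omega) hdb).trans hQ.2⟩, hs.squarefree_of_dvd hdb⟩⟩
    · intro ab _ _
      exact mul_nonneg (hp1 _) (hp2 _)
  · intro a _ b _ hab
    refine Finset.disjoint_left.2 fun f hf hg => hab ?_
    rw [← (Nat.mem_divisorsAntidiagonal.1 hf).1, ← (Nat.mem_divisorsAntidiagonal.1 hg).1]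
-- END two

-- BEGIN sfp
/-- `m ↦ m.primeFactors` is injective on squarefree numbers, with values in the sets of primes
`≤ Q`; `Finset.prod_one_add`. -/
theorem sfp (Q : ℕ) (y : ℕ → ℝ) (hy : ∀ p, p.Prime → 0 ≤ y p) :
    ∑ m ∈ sf Q, ∏ p ∈ m.primeFactors, y p ≤ ∏ p ∈ (range (Q + 1)).filter Nat.Prime, (1 + y p) := by
  have h1 : ∏ p ∈ (range (Q + 1)).filter Nat.Prime, (1 + y p)
      = ∑ s ∈ ((range (Q + 1)).filter Nat.Prime).powerset, ∏ p ∈ s, y p :=
    Finset.prod_one_add _
  have hinj : Set.InjOn Nat.primeFactors (sf Q : Set ℕ) := by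
    intro a ha b hb hab
    have ha' : Squarefree a := by
      have := Finset.mem_coe.1 ha
      exact (Finset.mem_filter.1 this).2
    have hb' : Squarefree b := by
      have := Finset.mem_coe.1 hb
      exact (Finset.mem_filter.1 this).2
    rw [← Nat.prod_primeFactors_of_squarefree ha', ← Nat.prod_primeFactors_of_squarefree hb', hab]
  have h2 : ∑ m ∈ sf Q, ∏ p ∈ m.primeFactors, y p
      = ∑ s ∈ (sf Q).image Nat.primeFactors, ∏ p ∈ s, y p :=
    (Finset.sum_image (f := fun s : Finset ℕ => ∏ p ∈ s, y p) hinj).symm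
  rw [h1, h2]
  apply Finset.sum_le_sum_of_subset_of_nonneg
  · intro s hs
    obtain ⟨m, hm, rfl⟩ := Finset.mem_image.1 hs
    have hm1 := (Finset.mem_filter.1 hm).1
    have hm2 := Finset.mem_Icc.1 hm1
    rw [Finset.mem_powerset]
    intro p hp
    have hpp := Nat.prime_of_mem_primeFactors hp
    have hple : p ≤ m := Nat.le_of_mem_primeFactors hp
    exact Finset.mem_filter.2 ⟨Finset.mem_range.2 (by omega), hpp⟩
  · intro s hs _
    apply Finset.prod_nonneg
    intro p hp
    have := Finset.mem_powerset.1 hs hp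
    exact hy p (Finset.mem_filter.1 this).2
-- END sfp

-- BEGIN ord
/-- Induction on `N` (`Finset.range_add_one`, `Finset.filter_insert`): the product over `p < N` is
`1 + ∑_{P < N} y_P ∏_{p < P} (1 + y_p)`. -/
theorem ord (N : ℕ) (y : ℕ → ℝ) (hy : ∀ p, p.Prime → 0 ≤ y p ∧ y p ≤ 3 / (4 * (p : ℝ))) :
    ∏ p ∈ (range N).filter Nat.Prime, (1 + y p)
      ≤ 1 + ∑ P ∈ (range N).filter Nat.Prime, y P *
          ∏ p ∈ (range P).filter Nat.Prime, (1 + 3 / (4 * (p : ℝ))) := by
  induction N with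
  | zero => simp
  | succ N ih =>
    rw [Finset.range_add_one, Finset.filter_insert]
    by_cases hN : N.Prime
    · rw [if_pos hN]
      have hnot : N ∉ (range N).filter Nat.Prime := by simp
      rw [Finset.prod_insert hnot, Finset.sum_insert hnot, add_mul, one_mul]
      have h1 : ∏ p ∈ (range N).filter Nat.Prime, (1 + y p) ≤
          ∏ p ∈ (range N).filter Nat.Prime, (1 + 3 / (4 * (p : ℝ))) := by
        refine Finset.prod_le_prod (fun p hp => ?_) fun p hp => ?_
        · have := (hy p (Finset.mem_filter.1 hp).2).1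
          linarith
        · have := (hy p (Finset.mem_filter.1 hp).2).2
          linarith
      have h2 := mul_le_mul_of_nonneg_left h1 (hy N hN).1
      linarith
    · rw [if_neg hN]
      exact ih
-- END ord

-- BEGIN tele
private theorem tele_aux (N : ℕ) :
    0 ≤ (∏ p ∈ (range N).filter Nat.Prime, (1 + 3 / (4 * (p : ℝ))))
        * ∏ p ∈ (range N).filter Nat.Prime, (1 - 1 / (p : ℝ)) ∧
    ∑ P ∈ (range N).filter Nat.Prime, 1 / (P : ℝ) *
        ((∏ p ∈ (range P).filter Nat.Prime, (1 + 3 / (4 * (p : ℝ))))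
          * ∏ p ∈ (range P).filter Nat.Prime, (1 - 1 / (p : ℝ))) +
      4 * ((∏ p ∈ (range N).filter Nat.Prime, (1 + 3 / (4 * (p : ℝ))))
        * ∏ p ∈ (range N).filter Nat.Prime, (1 - 1 / (p : ℝ))) ≤ 4 := by
  induction N with
  | zero => simp
  | succ N ih =>
    obtain ⟨h0, h1⟩ := ih
    rw [Finset.range_add_one, Finset.filter_insert]
    by_cases hp : Nat.Prime N
    · rw [if_pos hp]
      have hn : N ∉ (range N).filter Nat.Prime := fun h => by
        simpa using (Finset.mem_filter.1 h).1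
      rw [Finset.prod_insert hn, Finset.prod_insert hn, Finset.sum_insert hn]
      have hN : (2 : ℝ) ≤ N := by exact_mod_cast hp.two_le
      obtain ⟨r, hr⟩ : ∃ r : ℝ, r = 1 / (N : ℝ) := ⟨_, rfl⟩
      have hr0 : 0 < r := by rw [hr]; positivity
      have hr1 : r ≤ 1 / 2 := by rw [hr]; exact one_div_le_one_div_of_le (by norm_num) hN
      have e1 : 3 / (4 * (N : ℝ)) = 3 / 4 * r := by rw [hr]; ring
      rw [e1, ← hr]
      obtain ⟨A, hA⟩ : ∃ A : ℝ, A = ∏ p ∈ (range N).filter Nat.Prime, (1 + 3 / (4 * (p : ℝ))) :=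
        ⟨_, rfl⟩
      obtain ⟨B, hB⟩ : ∃ B : ℝ, B = ∏ p ∈ (range N).filter Nat.Prime, (1 - 1 / (p : ℝ)) := ⟨_, rfl⟩
      rw [← hA, ← hB] at h0 h1 ⊢
      have e2 : (1 + 3 / 4 * r) * A * ((1 - r) * B) = (1 + 3 / 4 * r) * (1 - r) * (A * B) := by ring
      rw [e2]
      refine ⟨mul_nonneg (mul_nonneg (by linarith) (by linarith)) h0, ?_⟩
      have h2 : (1 + 3 / 4 * r) * (1 - r) ≤ 1 - r / 4 := by nlinarith
      have h3 : (1 + 3 / 4 * r) * (1 - r) * (A * B) ≤ (1 - r / 4) * (A * B) :=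
        mul_le_mul_of_nonneg_right h2 h0
      linarith
    · rw [if_neg hp]
      exact ⟨h0, h1⟩

/-- With `R N = ∏_{p < N} (1 + 3/(4p)) (1 - 1/p)`, `R (P + 1) ≤ R P (1 - 1/(4P))` for a prime `P`;
induction on `N` for `sum + 4 R N ≤ 4`. -/
theorem tele (N : ℕ) :
    ∑ P ∈ (range N).filter Nat.Prime, 1 / (P : ℝ) *
        ((∏ p ∈ (range P).filter Nat.Prime, (1 + 3 / (4 * (p : ℝ))))
          * ∏ p ∈ (range P).filter Nat.Prime, (1 - 1 / (p : ℝ))) ≤ 4 := by
  obtain ⟨h0, h1⟩ := tele_aux N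
  linarith
-- END tele

-- BEGIN mer
/-- `∑_{P < N} 1/(P log P) ∏_{p < P} (1 + 3/(4p)) ≤ 4 C`, `C` of `MT.mertens_prod` (taken at `N := P`:
`1/log P ≤ C ∏_{p < P} (1 - 1/p)`), `tele`. -/
theorem mer : ∃ C : ℝ, 0 < C ∧ ∀ N : ℕ,
    ∑ P ∈ (range N).filter Nat.Prime, 1 / (P : ℝ) * (1 / Real.log P *
        ∏ p ∈ (range P).filter Nat.Prime, (1 + 3 / (4 * (p : ℝ)))) ≤ C := by
  obtain ⟨C, hC, hM⟩ := Pool.Agent.MT.mertens_prod
  refine ⟨4 * C, by positivity, fun N => ?_⟩
  have key : ∀ P ∈ (range N).filter Nat.Prime, 1 / (P : ℝ) * (1 / Real.log P *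
        ∏ p ∈ (range P).filter Nat.Prime, (1 + 3 / (4 * (p : ℝ)))) ≤
      C * (1 / (P : ℝ) * ((∏ p ∈ (range P).filter Nat.Prime, (1 + 3 / (4 * (p : ℝ)))) *
        ∏ p ∈ (range P).filter Nat.Prime, (1 - 1 / (p : ℝ)))) := by
    intro P hP
    have hPp : P.Prime := (mem_filter.1 hP).2
    have hP0 : (0 : ℝ) < P := by exact_mod_cast hPp.pos
    have hl : 0 < Real.log P := Real.log_pos (by exact_mod_cast hPp.one_lt)
    have hA : 0 ≤ ∏ p ∈ (range P).filter Nat.Prime, (1 + 3 / (4 * (p : ℝ))) :=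
      prod_nonneg fun p _ => by positivity
    have hB : 0 < ∏ p ∈ (range P).filter Nat.Prime, (1 - 1 / (p : ℝ)) := by
      refine prod_pos fun p hp => ?_
      have hp2 : (2 : ℝ) ≤ p := by exact_mod_cast (mem_filter.1 hp).2.two_le
      have hp3 : 1 / (p : ℝ) ≤ 1 / 2 := one_div_le_one_div_of_le (by norm_num) hp2
      linarith
    have h3 := hM P hPp.two_le
    rw [prod_inv_distrib] at h3
    generalize ∏ p ∈ (range P).filter Nat.Prime, (1 - 1 / (p : ℝ)) = B at hB h3 ⊢
    generalize ∏ p ∈ (range P).filter Nat.Prime, (1 + 3 / (4 * (p : ℝ))) = A at hA ⊢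
    have h4 : 1 / Real.log P ≤ C * B := by
      rw [div_le_iff₀ hl]
      have h5 : B⁻¹ * B ≤ C * Real.log P * B := mul_le_mul_of_nonneg_right h3 hB.le
      rw [inv_mul_cancel₀ hB.ne'] at h5
      linarith
    calc 1 / (P : ℝ) * (1 / Real.log P * A) ≤ 1 / (P : ℝ) * (C * B * A) :=
          mul_le_mul_of_nonneg_left (mul_le_mul_of_nonneg_right h4 hA) (by positivity)
      _ = C * (1 / (P : ℝ) * (A * B)) := by ring
  refine (sum_le_sum key).trans ?_
  rw [← mul_sum]
  have h6 := mul_le_mul_of_nonneg_left (tele N) hC.le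
  linarith
-- END mer

-- BEGIN avgp
/-- Average over `n` of `∑_{m ≤ Q} ∏_{p ∣ m} h_n(p)/p`: `sfp`, `ord` (with `N := Q + 1`), exchange the
sums, `mer`. -/
theorem avgp : ∃ C : ℝ, 0 < C ∧ ∀ (K : ℝ) (Q : ℕ) (I : Finset ℕ) (h : ℕ → ℕ → ℝ), 0 ≤ K →
    (∀ n ∈ I, ∀ p, p.Prime → 0 ≤ h n p ∧ h n p ≤ 3 / 4) →
    (∀ p, p.Prime → p ≤ Q → ∑ n ∈ I, h n p ≤ I.card * (K * (1 / Real.log p))) →
    ∑ n ∈ I, ∑ m ∈ sf Q, ∏ p ∈ m.primeFactors, h n p / p ≤ I.card * (1 + C * K) := by
  obtain ⟨C, hC, hmer⟩ := mer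
  refine ⟨C, hC, ?_⟩
  intro K Q I h hK hh hs
  set R : ℕ → ℝ := fun P => ∏ p ∈ (range P).filter Nat.Prime, (1 + 3 / (4 * (p : ℝ))) with hR
  have hR0 : ∀ P, 0 ≤ R P := fun P => Finset.prod_nonneg fun p _ => by positivity
  have h1 : ∀ n ∈ I, ∑ m ∈ sf Q, ∏ p ∈ m.primeFactors, h n p / p ≤
      1 + ∑ P ∈ (range (Q + 1)).filter Nat.Prime, h n P / P * R P := by
    intro n hn
    refine (sfp Q (fun p => h n p / p) fun p hp => ?_).trans
      (ord (Q + 1) (fun p => h n p / p) fun p hp => ⟨?_, ?_⟩)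
    · exact div_nonneg (hh n hn p hp).1 (Nat.cast_nonneg p)
    · exact div_nonneg (hh n hn p hp).1 (Nat.cast_nonneg p)
    · have hp0 : (0 : ℝ) < p := by exact_mod_cast hp.pos
      have h2 := (hh n hn p hp).2
      show h n p / (p : ℝ) ≤ 3 / (4 * (p : ℝ))
      have h3 : 3 / (4 * (p : ℝ)) = 3 / 4 / p := by
        field_simp
      rw [h3]
      exact div_le_div_of_nonneg_right h2 hp0.le
  have hI : (0 : ℝ) ≤ I.card := Nat.cast_nonneg _
  calc ∑ n ∈ I, ∑ m ∈ sf Q, ∏ p ∈ m.primeFactors, h n p / p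
      ≤ ∑ n ∈ I, (1 + ∑ P ∈ (range (Q + 1)).filter Nat.Prime, h n P / P * R P) :=
        Finset.sum_le_sum h1
    _ = I.card + ∑ P ∈ (range (Q + 1)).filter Nat.Prime, (∑ n ∈ I, h n P) * (1 / P * R P) := by
        rw [Finset.sum_add_distrib, Finset.sum_const, nsmul_eq_mul, mul_one, Finset.sum_comm]
        congr 1
        refine Finset.sum_congr rfl fun P _ => ?_
        rw [Finset.sum_mul]
        refine Finset.sum_congr rfl fun n _ => ?_
        ring
    _ ≤ I.card + ∑ P ∈ (range (Q + 1)).filter Nat.Prime,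
          (I.card * (K * (1 / Real.log P))) * (1 / P * R P) := by
        refine add_le_add le_rfl (Finset.sum_le_sum fun P hP => ?_)
        rw [Finset.mem_filter, Finset.mem_range] at hP
        refine mul_le_mul_of_nonneg_right (hs P hP.2 (by omega)) ?_
        have := hR0 P
        positivity
    _ = I.card + I.card * K * ∑ P ∈ (range (Q + 1)).filter Nat.Prime,
          1 / (P : ℝ) * (1 / Real.log P * R P) := by
        rw [Finset.mul_sum]
        congr 1
        refine Finset.sum_congr rfl fun P _ => ?_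
        ring
    _ ≤ I.card + I.card * K * C := by
        refine add_le_add le_rfl (mul_le_mul_of_nonneg_left (hmer (Q + 1)) (by positivity))
    _ = I.card * (1 + C * K) := by ring
-- END avgp

-- BEGIN kch
/-- The choice of `k`: for `k = Nat.log (d ^ 2) p` one has `d^(2k) ≤ p < d^(2k+2)`. If `k = 0` the first
alternative holds. If `k ≥ 1` then `k (d^k + 1)/p ≤ 2k/2^k ≤ 4/k`, `1/k`, `1/p ≤ 1/k`, and
`log p ≤ 4 k log d`. -/
theorem kch {d p : ℕ} (hd : 2 ≤ d) (hp : p.Prime) :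
    1 ≤ 24 * Real.log d * (1 / Real.log p) ∨ ∃ k : ℕ, 1 ≤ k ∧
      (k * (d ^ k + 1) / p : ℝ) + 1 / k + 1 / p ≤ 24 * Real.log d * (1 / Real.log p) := by
  have hd' : (2 : ℝ) ≤ d := by exact_mod_cast hd
  have hp2 : (2 : ℝ) ≤ p := by exact_mod_cast hp.two_le
  have hlp : 0 < Real.log p := Real.log_pos (by linarith)
  have hld : 0 < Real.log d := Real.log_pos (by linarith)
  have hb : 1 < d ^ 2 := by nlinarith
  have hlt : p < (d ^ 2) ^ (Nat.log (d ^ 2) p + 1) := Nat.lt_pow_succ_log_self hb p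
  have hle : (d ^ 2) ^ (Nat.log (d ^ 2) p) ≤ p := Nat.pow_log_le_self _ hp.ne_zero
  obtain ⟨k, hk⟩ : ∃ k, k = Nat.log (d ^ 2) p := ⟨_, rfl⟩
  rw [← hk] at hlt hle
  have hlogp : Real.log p ≤ 2 * (k + 1) * Real.log d := by
    have h1 : (p : ℝ) ≤ (d : ℝ) ^ (2 * (k + 1)) := by
      have : p ≤ d ^ (2 * (k + 1)) := by rw [pow_mul]; exact hlt.le
      exact_mod_cast this
    have h2 := Real.log_le_log (by linarith) h1
    rw [Real.log_pow] at h2
    push_cast at h2
    exact h2
  rcases Nat.eq_zero_or_pos k with h0 | hk1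
  · left
    rw [h0] at hlogp
    rw [mul_one_div, le_div_iff₀ hlp]
    push_cast at hlogp
    nlinarith
  · right
    refine ⟨k, hk1, ?_⟩
    have hkR : (1 : ℝ) ≤ k := by exact_mod_cast hk1
    have hkp : (0 : ℝ) < k := by linarith
    have hpp : (0 : ℝ) < p := by linarith
    -- `k ≤ 2^k`
    have h2k : (k : ℝ) < 2 ^ k := by exact_mod_cast Nat.lt_two_pow_self
    have hdk : (2 : ℝ) ^ k ≤ (d : ℝ) ^ k := pow_le_pow_left₀ (by norm_num) hd' k
    have hdp : (d : ℝ) ^ k * (d : ℝ) ^ k ≤ p := by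
      have : d ^ k * d ^ k ≤ p := by
        have e : d ^ k * d ^ k = (d ^ 2) ^ k := by rw [← pow_mul, ← pow_add]; congr 1; ring
        rw [e]; exact hle
      exact_mod_cast this
    have hD1 : (1 : ℝ) ≤ (d : ℝ) ^ k := one_le_pow₀ (by linarith)
    -- `k ^ 2 ≤ 2 * 2 ^ k`
    have hk2 : (k : ℝ) ^ 2 ≤ 2 * 2 ^ k := by
      have : k ^ 2 ≤ 2 * 2 ^ k := by
        clear * -
        induction k with
        | zero => norm_num
        | succ m ih =>
          rcases le_or_gt m 2 with h | h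
          · interval_cases m <;> norm_num
          · rw [pow_succ 2 m]
            nlinarith
      exact_mod_cast this
    have t1 : (k * (d ^ k + 1) / p : ℝ) ≤ 4 / k := by
      rw [div_le_div_iff₀ hpp hkp]
      have a1 : (k : ℝ) * (d ^ k + 1) * k ≤ (2 * 2 ^ k) * (2 * d ^ k) := by
        have : (k : ℝ) * (d ^ k + 1) * k = (k : ℝ) ^ 2 * (d ^ k + 1) := by ring
        rw [this]
        exact mul_le_mul hk2 (by linarith) (by positivity) (by positivity)
      have a2 : (2 * 2 ^ k) * (2 * (d : ℝ) ^ k) ≤ 4 * p := by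
        have : (2 * 2 ^ k) * (2 * (d : ℝ) ^ k) = 4 * (2 ^ k * (d : ℝ) ^ k) := by ring
        rw [this]
        have : (2 : ℝ) ^ k * (d : ℝ) ^ k ≤ (d : ℝ) ^ k * (d : ℝ) ^ k :=
          mul_le_mul_of_nonneg_right hdk (by linarith)
        linarith
      linarith
    have t2 : (1 : ℝ) / p ≤ 1 / k := by
      apply one_div_le_one_div_of_le hkp
      have : (k : ℝ) ≤ (d : ℝ) ^ k * 1 := by linarith
      nlinarith
    have t3 : (6 : ℝ) / k ≤ 24 * Real.log d * (1 / Real.log p) := by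
      rw [mul_one_div, div_le_div_iff₀ hkp hlp]
      nlinarith [mul_le_mul_of_nonneg_right hkR hld.le]
    have t4 : (4 : ℝ) / k + 1 / k + 1 / k = 6 / k := by ring
    linarith
-- END kch

end Pool.Agent.ODx
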