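import Pool.Agent.ODn.Den
import Pool.Agent.ODx.Loc
import Pool.Agent.ODx.Num

set_option autoImplicit false

namespace Pool.Agent.ODx

open Finset Filter Pool.Agent.ODn

-- BEGIN glp
/-- `gl` for `K = ZMod p` (`card_rs` for `α` and for `0`) gives `(1 - gp d n 0 p)/p ≤ gp d n α p`, and
`g ≤ g/(1 - g)` (`gp_bd`). -/
theorem glp {d n p : ℕ} (hd : 2 ≤ d) (hn : 1 ≤ n) (hpr : p.Prime) (α : ℤ) :
    (1 - gp d n 0 p) / p ≤ hp d n α p := by
  have : Fact p.Prime := ⟨hpr⟩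
  have hp0 : (0 : ℝ) < p := Nat.cast_pos.2 hpr.pos
  have hP : (0 : ℝ) < (p : ℝ) ^ (d + 1) := by positivity
  have h1 := gl (K := ZMod p) (d := d) (α : ZMod p) n
  have e0 := card_rs (d := d) (p := p) 0 n
  rw [Int.cast_zero] at e0
  rw [← card_rs, ← e0, ZMod.card] at h1
  have h1' : (p : ℝ) ^ (d + 1)
      ≤ (((rs (d + 1) p).filter fun c => (p : ℤ) ∣ it c 0 n).card : ℝ)
        + p * (((rs (d + 1) p).filter fun c => (p : ℤ) ∣ it c α n).card : ℝ) := by
    exact_mod_cast h1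
  have h2 : (1 - gp d n 0 p) / p ≤ gp d n α p := by
    rw [div_le_iff₀ hp0]
    unfold gp
    rw [sub_le_iff_le_add, div_mul_eq_mul_div, ← add_div, le_div_iff₀ hP, one_mul]
    linarith
  obtain ⟨h3, h4⟩ := gp_bd hd hn hpr α
  have h5 : 0 < gp d n α p := lt_of_lt_of_le (by positivity) h3
  refine h2.trans ?_
  unfold hp
  rw [le_div_iff₀ (by linarith)]
  nlinarith
-- END glp

-- BEGIN havg
/-- Exchange the sums: `∑_n gp d n 0 p = p^-(d+1) ∑_c #{n : it c 0 n = 0}` over `c : Fin (d+1) → ZMod p`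
(`card_rs` with `α = 0`); the inner number is at most `L` if `it c 0 l = 0` for some `l ∈ [1, k]`, at
most `L/k + 1` otherwise (`per` for `g = ev c`); the number of the first `c` is at most
`∑_{l ≤ k} (d^l + 1) p^(d+1)/p` (`fix`). -/
theorem havg {d p M L k : ℕ} (hd : 2 ≤ d) (hpr : p.Prime) (hM : 1 ≤ M) (hk : 1 ≤ k) :
    ∑ n ∈ Ico M (M + L), gp d n 0 p ≤ L * (k * (d ^ k + 1) / p) + (L / k + 1) := by
  have : Fact p.Prime := ⟨hpr⟩
  have hp0 : (0 : ℝ) < p := by exact_mod_cast hpr.pos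
  have hP : (0 : ℝ) < (p : ℝ) ^ (d + 1) := by positivity
  have hgp : ∀ n, gp d n 0 p
      = ((univ.filter fun c : Fin (d + 1) → ZMod p => it c 0 n = 0).card : ℝ) / (p : ℝ) ^ (d + 1) := by
    intro n
    unfold gp
    rw [card_rs]
    simp
  have hsum : ∑ n ∈ Ico M (M + L), gp d n 0 p
      = (∑ c : Fin (d + 1) → ZMod p, (((Ico M (M + L)).filter fun n => it c 0 n = 0).card : ℝ))
        / (p : ℝ) ^ (d + 1) := by
    rw [Finset.sum_congr rfl (fun n _ => hgp n), ← Finset.sum_div]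
    congr 1
    simp only [Finset.card_filter, Nat.cast_sum]
    rw [Finset.sum_comm]
  set B := (Icc 1 k).biUnion fun l =>
    univ.filter fun c : Fin (d + 1) → ZMod p => it c 0 l = 0 with hB
  have hcard : B.card * p ≤ k * ((d ^ k + 1) * p ^ (d + 1)) := by
    have h2 : B.card ≤ ∑ l ∈ Icc 1 k,
        (univ.filter fun c : Fin (d + 1) → ZMod p => it c 0 l = 0).card :=
      Finset.card_biUnion_le
    calc B.card * p ≤ (∑ l ∈ Icc 1 k,
        (univ.filter fun c : Fin (d + 1) → ZMod p => it c 0 l = 0).card) * p :=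
          Nat.mul_le_mul_right _ h2
      _ = ∑ l ∈ Icc 1 k,
        (univ.filter fun c : Fin (d + 1) → ZMod p => it c 0 l = 0).card * p := Finset.sum_mul _ _ _
      _ ≤ ∑ l ∈ Icc 1 k, (d ^ k + 1) * p ^ (d + 1) := by
          refine Finset.sum_le_sum fun l hl => ?_
          obtain ⟨hl1, hlk⟩ := Finset.mem_Icc.1 hl
          have h3 := fix (K := ZMod p) (d := d) (l := l) hd hl1
          rw [ZMod.card] at h3
          refine h3.trans (Nat.mul_le_mul_right _ ?_)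
          exact Nat.add_le_add_right (Nat.pow_le_pow_right (by omega) hlk) 1
      _ = k * ((d ^ k + 1) * p ^ (d + 1)) := by
          rw [Finset.sum_const, Nat.card_Icc, smul_eq_mul, Nat.add_sub_cancel]
  have hpt : ∀ c : Fin (d + 1) → ZMod p,
      (((Ico M (M + L)).filter fun n => it c 0 n = 0).card : ℝ)
        ≤ (if c ∈ B then (L : ℝ) else 0) + (L / k + 1) := by
    intro c
    have hLk : (0 : ℝ) ≤ (L : ℝ) / k + 1 := by positivity
    by_cases hc : c ∈ B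
    · rw [if_pos hc]
      have h1 : ((Ico M (M + L)).filter fun n => it c 0 n = 0).card ≤ L := by
        refine (Finset.card_filter_le _ _).trans ?_
        rw [Nat.card_Ico, Nat.add_sub_cancel_left]
      have h2 : (((Ico M (M + L)).filter fun n => it c 0 n = 0).card : ℝ) ≤ L := by
        exact_mod_cast h1
      linarith
    · rw [if_neg hc, zero_add]
      have h1 := per (ev c) (0 : ZMod p) k M L hk hM (by
        intro l hl1 hlk h0
        exact hc (Finset.mem_biUnion.2 ⟨l, Finset.mem_Icc.2 ⟨hl1, hlk⟩,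
          Finset.mem_filter.2 ⟨Finset.mem_univ _, h0⟩⟩))
      have h2 : (((Ico M (M + L)).filter fun n => it c 0 n = 0).card : ℝ)
          ≤ ((L / k + 1 : ℕ) : ℝ) := by
        exact_mod_cast h1
      refine h2.trans ?_
      push_cast
      have h3 : ((L / k : ℕ) : ℝ) ≤ (L : ℝ) / k := Nat.cast_div_le
      linarith
  have htot : (∑ c : Fin (d + 1) → ZMod p,
        (((Ico M (M + L)).filter fun n => it c 0 n = 0).card : ℝ))
      ≤ L * B.card + (L / k + 1) * (p : ℝ) ^ (d + 1) := by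
    refine (Finset.sum_le_sum fun c _ => hpt c).trans ?_
    rw [Finset.sum_add_distrib, ← Finset.sum_filter, Finset.sum_const, Finset.sum_const,
      Finset.filter_mem_eq_inter, Finset.univ_inter, Finset.card_univ, Fintype.card_fun,
      Fintype.card_fin, ZMod.card, nsmul_eq_mul, nsmul_eq_mul]
    push_cast
    linarith
  have hBR : (B.card : ℝ) ≤ k * (d ^ k + 1) / p * (p : ℝ) ^ (d + 1) := by
    have h1 : (B.card : ℝ) * p ≤ k * ((d ^ k + 1) * (p : ℝ) ^ (d + 1)) := by exact_mod_cast hcard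
    rw [div_mul_eq_mul_div, le_div_iff₀ hp0]
    linarith
  rw [hsum, div_le_iff₀ hP]
  refine htot.trans ?_
  have hL0 : (0 : ℝ) ≤ L := Nat.cast_nonneg _
  have h5 := mul_le_mul_of_nonneg_left hBR hL0
  calc (L : ℝ) * B.card + (L / k + 1) * (p : ℝ) ^ (d + 1)
      ≤ L * (k * (d ^ k + 1) / p * (p : ℝ) ^ (d + 1)) + (L / k + 1) * (p : ℝ) ^ (d + 1) := by
        linarith
    _ = (L * (k * (d ^ k + 1) / p) + (L / k + 1)) * (p : ℝ) ^ (d + 1) := by ring
-- END havg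

-- BEGIN hlog
/-- `havg`, `kch`, `1 ≤ L/p` and `gp ≤ 1` (`gp_bd`). -/
theorem hlog {d p M L : ℕ} (hd : 2 ≤ d) (hpr : p.Prime) (hM : 1 ≤ M) (hL : p ≤ L) :
    ∑ n ∈ Ico M (M + L), gp d n 0 p ≤ L * (24 * Real.log d * (1 / Real.log p)) := by
  have hp0 : (0 : ℝ) < p := by exact_mod_cast hpr.pos
  have hLr : (p : ℝ) ≤ L := by exact_mod_cast hL
  have hLp : (1 : ℝ) ≤ L / p := by
    rw [le_div_iff₀ hp0, one_mul]
    exact hLr
  have hL0 : (0 : ℝ) ≤ L := Nat.cast_nonneg L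
  rcases kch hd hpr with h | ⟨k, hk, h⟩
  · have h1 : ∑ n ∈ Ico M (M + L), gp d n 0 p ≤ ∑ _n ∈ Ico M (M + L), (1 : ℝ) := by
      refine sum_le_sum fun n hn => ?_
      have := (gp_bd hd (hM.trans (mem_Ico.1 hn).1) hpr 0).2
      linarith
    refine h1.trans ?_
    rw [sum_const, Nat.card_Ico, Nat.add_sub_cancel_left, nsmul_eq_mul]
    exact mul_le_mul_of_nonneg_left h hL0
  · refine (havg hd hpr hM hk).trans ?_
    refine le_trans ?_ (mul_le_mul_of_nonneg_left h hL0)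
    have h2 : (L : ℝ) * ((k * (d ^ k + 1) / p : ℝ) + 1 / k + 1 / p)
        = L * (k * (d ^ k + 1) / p) + (L / k + L / p) := by ring
    rw [h2]
    linarith
-- END hlog

-- BEGIN cmb
open Classical in
/-- `sieve`, `glp`, `two` for `x p = gp d n 0 p`, `harm`, and `log (2H+1) ≤ 8 log (Q+1)`
(as in `S_low`). -/
theorem cmb {d n Q H : ℕ} (hd : 2 ≤ d) (hn : 1 ≤ n) (hQ1 : 1 ≤ Q) (hQ : Q ^ 8 ≤ 2 * H + 1)
    (hQ2 : 2 * H + 1 < (Q + 1) ^ 8) (α : ℤ) :
    (((box (d + 1) H).filter fun c => ∀ p : ℕ, p.Prime → p ≤ Q → ¬ (p : ℤ) ∣ it c α n).card : ℝ)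
        * Real.log (2 * H + 1)
      ≤ 16 * ((1 + (d + 1) * 2 ^ d) * (2 * H + 1 : ℝ) ^ (d + 1))
        * ∑ m ∈ sf Q, ∏ p ∈ m.primeFactors, gp d n 0 p / p := by
  have h1 : Real.log (2 * H + 1) ≤ 8 * Real.log (Q + 1) := by
    have h2 : (2 * (H : ℝ) + 1) ≤ ((Q : ℝ) + 1) ^ 8 := by
      exact_mod_cast hQ2.le
    have h3 : Real.log (2 * (H : ℝ) + 1) ≤ Real.log (((Q : ℝ) + 1) ^ 8) :=
      Real.log_le_log (by positivity) h2
    rw [Real.log_pow] at h3
    exact_mod_cast h3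
  have h4 := harm Q
  have hbd : ∀ p : ℕ, p.Prime → 0 ≤ gp d n 0 p ∧ gp d n 0 p ≤ 1 := by
    intro p hp
    have h5 := gp_bd hd hn hp 0
    have h6 : (0 : ℝ) ≤ 1 / (3 * (p : ℝ)) := by positivity
    exact ⟨by linarith [h5.1], by linarith [h5.2]⟩
  have h5 := two Q (fun p => gp d n 0 p) hbd
  have h6 := sieve (d := d) (n := n) (Q := Q) (H := H) hd hn hQ1 hQ α
  obtain ⟨A, hA⟩ : ∃ A : ℝ, A = (((box (d + 1) H).filter fun c => ∀ p : ℕ, p.Prime → p ≤ Q →
    ¬ (p : ℤ) ∣ it c α n).card : ℝ) := ⟨_, rfl⟩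
  have hA0 : 0 ≤ A := by rw [hA]; exact Nat.cast_nonneg _
  rw [← hA] at h6 ⊢
  have h7 : ∑ m ∈ sf Q, ∏ p ∈ m.primeFactors, (1 - gp d n 0 p) / p ≤
      ∑ m ∈ sf Q, HM d n α m := by
    refine Finset.sum_le_sum fun m _ => ?_
    unfold HM
    refine Finset.prod_le_prod (fun p hp => ?_) fun p hp => ?_
    · have h8 := (hbd p (Nat.prime_of_mem_primeFactors hp)).2
      exact div_nonneg (by linarith) (Nat.cast_nonneg _)
    · exact glp hd hn (Nat.prime_of_mem_primeFactors hp) α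
  have hS1 : 0 ≤ ∑ m ∈ sf Q, ∏ p ∈ m.primeFactors, gp d n 0 p / p :=
    Finset.sum_nonneg fun m _ => Finset.prod_nonneg fun p hp =>
      div_nonneg (hbd p (Nat.prime_of_mem_primeFactors hp)).1 (Nat.cast_nonneg _)
  have h8 := mul_le_mul_of_nonneg_left h7 hS1
  have h9 : Real.log (2 * H + 1) ≤ 16 * ((∑ m ∈ sf Q, ∏ p ∈ m.primeFactors, gp d n 0 p / p) *
      ∑ m ∈ sf Q, HM d n α m) := by linarith
  have h10 := mul_le_mul_of_nonneg_left h9 hA0
  have h11 := mul_le_mul_of_nonneg_left h6 (mul_nonneg (by norm_num : (0 : ℝ) ≤ 16) hS1)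
  refine h10.trans ?_
  calc A * (16 * ((∑ m ∈ sf Q, ∏ p ∈ m.primeFactors, gp d n 0 p / p) * ∑ m ∈ sf Q, HM d n α m))
      = 16 * (∑ m ∈ sf Q, ∏ p ∈ m.primeFactors, gp d n 0 p / p) * (A * ∑ m ∈ sf Q, HM d n α m) := by
        ring
    _ ≤ _ := h11
    _ = _ := by ring
-- END cmb

-- BEGIN avga
open Classical in
/-- `Q` maximal with `Q^8 ≤ 2H+1` (as in `part_a`), `cmb` summed over `n`, `avgp` with
`I = Ico M (M + L)`, `h n p = gp d n 0 p`, `K = 24 log d` (`hlog`: `p^8 ≤ 2H+1 ≤ L^8` gives `p ≤ L`),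
`1 + (d+1) 2^d ≤ 2 d 2^d`, `1 ≤ 2 log d`, `log H ≤ log (2H+1)`. -/
theorem avga : ∃ C : ℝ, 0 < C ∧ ∀ d H : ℕ, 2 ≤ d → 2 ≤ H → ∀ (α : ℤ) (M L : ℕ), 1 ≤ M →
    2 * H + 1 ≤ L ^ 8 →
    ∑ n ∈ Ico M (M + L), (((box (d + 1) H).filter fun c => ∀ p : ℕ, p.Prime → p ^ 8 ≤ 2 * H + 1 →
        ¬ (p : ℤ) ∣ it c α n).card : ℝ)
      ≤ L * (C * d * 2 ^ d * Real.log d / Real.log H * (2 * H + 1) ^ (d + 1)) := by
  obtain ⟨C, hC, hav⟩ := avgp
  refine ⟨32 * (2 + 24 * C), by positivity, ?_⟩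
  intro d H hd hH α M L hM hL
  obtain ⟨Q, hQ1, hQ, hQ2⟩ : ∃ Q : ℕ, 1 ≤ Q ∧ Q ^ 8 ≤ 2 * H + 1 ∧ 2 * H + 1 < (Q + 1) ^ 8 := by
    have hex : ∃ k : ℕ, 2 * H + 1 < k ^ 8 :=
      ⟨2 * H + 2, lt_of_lt_of_le (by omega) (Nat.le_self_pow (by norm_num) _)⟩
    have hk := Nat.find_spec hex
    have hk0 : Nat.find hex ≠ 0 := fun h => by rw [h] at hk; simp at hk
    have hk1 : Nat.find hex ≠ 1 := fun h => by rw [h] at hk; simp at hk
    refine ⟨Nat.find hex - 1, by omega, ?_, ?_⟩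
    · exact not_lt.1 (Nat.find_min hex (m := Nat.find hex - 1) (by omega))
    · rw [show Nat.find hex - 1 + 1 = Nat.find hex by omega]; exact hk
  have hQL : Q ≤ L := by
    by_contra hcon
    have h1 : L < Q := not_le.1 hcon
    have h2 : L ^ 8 < Q ^ 8 := Nat.pow_lt_pow_left h1 (by norm_num)
    omega
  have hd' : (2 : ℝ) ≤ d := by exact_mod_cast hd
  have hH' : (2 : ℝ) ≤ H := by exact_mod_cast hH
  have hlogd : (1 : ℝ) ≤ 2 * Real.log d := by
    have h1 : Real.log 2 ≤ Real.log d := Real.log_le_log (by norm_num) hd'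
    have h2 := Real.log_two_gt_d9
    linarith
  have hlogd0 : (0 : ℝ) ≤ Real.log d := by linarith
  have hLH : 0 < Real.log H := Real.log_pos (by linarith)
  have hLL : Real.log H ≤ Real.log (2 * H + 1) := Real.log_le_log (by linarith) (by linarith)
  have hLp : 0 < Real.log (2 * (H : ℝ) + 1) := lt_of_lt_of_le hLH hLL
  -- the average of the local sums
  have hA := hav (24 * Real.log d) Q (Ico M (M + L)) (fun n p => gp d n 0 p) (by positivity)
    (by
      intro n hn p hp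
      have hn1 : 1 ≤ n := le_trans hM (Finset.mem_Ico.1 hn).1
      obtain ⟨h1, h2⟩ := gp_bd (d := d) (n := n) hd hn1 hp 0
      exact ⟨le_trans (by positivity) h1, h2⟩)
    (by
      intro p hp hpQ
      rw [Nat.card_Ico, Nat.add_sub_cancel_left]
      exact hlog hd hp hM (hpQ.trans hQL))
  rw [Nat.card_Ico, Nat.add_sub_cancel_left] at hA
  -- termwise
  set W : ℝ := (1 + (d + 1) * 2 ^ d) * (2 * H + 1 : ℝ) ^ (d + 1) with hW
  have hW0 : 0 ≤ W := by positivity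
  have hterm : ∀ n ∈ Ico M (M + L),
      (((box (d + 1) H).filter fun c => ∀ p : ℕ, p.Prime → p ^ 8 ≤ 2 * H + 1 →
        ¬ (p : ℤ) ∣ it c α n).card : ℝ) * Real.log (2 * H + 1)
      ≤ 16 * W * ∑ m ∈ sf Q, ∏ p ∈ m.primeFactors, gp d n 0 p / p := by
    intro n hn
    have hn1 : 1 ≤ n := le_trans hM (Finset.mem_Ico.1 hn).1
    have h1 := cmb (d := d) (n := n) hd hn1 hQ1 hQ hQ2 α
    have hsub : ((box (d + 1) H).filter fun c => ∀ p : ℕ, p.Prime → p ^ 8 ≤ 2 * H + 1 →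
          ¬ (p : ℤ) ∣ it c α n).card ≤
        ((box (d + 1) H).filter fun c => ∀ p : ℕ, p.Prime → p ≤ Q →
          ¬ (p : ℤ) ∣ it c α n).card := by
      refine Finset.card_le_card fun c hc => ?_
      rw [Finset.mem_filter] at hc ⊢
      exact ⟨hc.1, fun p hp hpQ => hc.2 p hp (le_trans (Nat.pow_le_pow_left hpQ 8) hQ)⟩
    have hsub' : (((box (d + 1) H).filter fun c => ∀ p : ℕ, p.Prime → p ^ 8 ≤ 2 * H + 1 →
          ¬ (p : ℤ) ∣ it c α n).card : ℝ) ≤
        (((box (d + 1) H).filter fun c => ∀ p : ℕ, p.Prime → p ≤ Q →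
          ¬ (p : ℤ) ∣ it c α n).card : ℝ) := by exact_mod_cast hsub
    exact (mul_le_mul_of_nonneg_right hsub' hLp.le).trans h1
  have hS : (∑ n ∈ Ico M (M + L),
      (((box (d + 1) H).filter fun c => ∀ p : ℕ, p.Prime → p ^ 8 ≤ 2 * H + 1 →
        ¬ (p : ℤ) ∣ it c α n).card : ℝ)) * Real.log (2 * H + 1)
      ≤ 16 * W * (L * (1 + C * (24 * Real.log d))) := by
    rw [Finset.sum_mul]
    refine (Finset.sum_le_sum hterm).trans ?_
    rw [← Finset.mul_sum]
    exact mul_le_mul_of_nonneg_left hA (by positivity)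
  set T : ℝ := ∑ n ∈ Ico M (M + L),
      (((box (d + 1) H).filter fun c => ∀ p : ℕ, p.Prime → p ^ 8 ≤ 2 * H + 1 →
        ¬ (p : ℤ) ∣ it c α n).card : ℝ) with hT
  have hT0 : 0 ≤ T := Finset.sum_nonneg fun n _ => Nat.cast_nonneg _
  have hL0 : (0 : ℝ) ≤ L := Nat.cast_nonneg _
  have h2d : (1 + (d + 1) * 2 ^ d : ℝ) ≤ 2 * d * 2 ^ d := by
    have h1 : (1 : ℝ) ≤ 2 ^ d := one_le_pow₀ (by norm_num)
    nlinarith [mul_nonneg (sub_nonneg.2 hd') (sub_nonneg.2 h1)]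
  have hW1 : W ≤ 2 * d * 2 ^ d * (2 * H + 1 : ℝ) ^ (d + 1) :=
    mul_le_mul_of_nonneg_right h2d (by positivity)
  have hK : 1 + C * (24 * Real.log d) ≤ (2 + 24 * C) * Real.log d := by linarith
  have hK0 : 0 ≤ 1 + C * (24 * Real.log d) := by positivity
  have h3 : T * Real.log H ≤ 16 * (2 * d * 2 ^ d * (2 * H + 1 : ℝ) ^ (d + 1))
      * (L * ((2 + 24 * C) * Real.log d)) := by
    calc T * Real.log H ≤ T * Real.log (2 * H + 1) := mul_le_mul_of_nonneg_left hLL hT0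
      _ ≤ 16 * W * (L * (1 + C * (24 * Real.log d))) := hS
      _ ≤ 16 * (2 * d * 2 ^ d * (2 * H + 1 : ℝ) ^ (d + 1)) * (L * (1 + C * (24 * Real.log d))) := by
          refine mul_le_mul_of_nonneg_right ?_ (mul_nonneg hL0 hK0)
          linarith
      _ ≤ _ := by
          refine mul_le_mul_of_nonneg_left (mul_le_mul_of_nonneg_left hK hL0) ?_
          positivity
  have h4 : T ≤ 16 * (2 * d * 2 ^ d * (2 * H + 1 : ℝ) ^ (d + 1))
      * (L * ((2 + 24 * C) * Real.log d)) / Real.log H := by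
    rw [le_div_iff₀ hLH]
    exact h3
  refine h4.trans (le_of_eq ?_)
  field_simp
  ring
-- END avga

-- BEGIN pb
/-- The rough indices. -/
private def pb_R {d : ℕ} (H : ℕ) (α : ℤ) (c : Fin (d + 1) → ℤ) (n : ℕ) : Prop :=
  ∀ p : ℕ, p.Prime → p ^ 8 ≤ 2 * H + 1 → ¬ (p : ℤ) ∣ it c α n

/-- The modulus. -/
private noncomputable def pb_M (H : ℕ) : ℕ :=
  (2 * H + 1) * ∏ p ∈ (range (2 * H + 2)).filter (fun p => p.Prime ∧ p ^ 8 ≤ 2 * H + 1), p

private theorem pb_prod_pos (H : ℕ) :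
    0 < ∏ p ∈ (range (2 * H + 2)).filter (fun p => p.Prime ∧ p ^ 8 ≤ 2 * H + 1), p := by
  refine Finset.prod_pos fun p hp => ?_
  exact (Finset.mem_filter.1 hp).2.1.pos

private theorem pb_M_pos (H : ℕ) : 0 < pb_M H := by
  unfold pb_M
  exact Nat.mul_pos (by omega) (pb_prod_pos H)

private theorem pb_M_le (H : ℕ) : 2 * H + 1 ≤ pb_M H := by
  unfold pb_M
  exact Nat.le_mul_of_pos_right _ (pb_prod_pos H)

private theorem pb_dvd (H p : ℕ) (hp : p.Prime) (hpH : p ^ 8 ≤ 2 * H + 1) :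
    p ∣ pb_M H := by
  unfold pb_M
  refine Dvd.dvd.mul_left ?_ _
  refine Finset.dvd_prod_of_mem (fun p => p) ?_
  rw [Finset.mem_filter, Finset.mem_range]
  refine ⟨?_, hp, hpH⟩
  have : p ≤ p ^ 8 := Nat.le_self_pow (by norm_num) p
  omega

private theorem pb_per {d : ℕ} (H : ℕ) (α : ℤ) (c : Fin (d + 1) → ℤ) (n : ℕ)
    (hn : pb_M H ≤ n) :
    pb_R H α c (n + (pb_M H).factorial) ↔ pb_R H α c n := by
  have h := evper c α (pb_M H) (pb_M_pos H) n hn
  unfold pb_R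
  refine forall_congr' fun p => forall_congr' fun hp => forall_congr' fun hpH => ?_
  have h1 : it c α (n + (pb_M H).factorial) ≡ it c α n [ZMOD p] :=
    h.of_dvd (by exact_mod_cast pb_dvd H p hp hpH)
  exact not_congr h1.dvd_iff

private theorem pb_fin {d : ℕ} (H : ℕ) (α : ℤ) (c : Fin (d + 1) → ℤ) (h : Wand c α) :
    {n | Prime (it c α n) ∧ ¬ pb_R H α c n}.Finite := by
  refine (fin_wand c α h (2 * H + 1)).subset ?_
  rintro n ⟨hP, hR⟩
  unfold pb_R at hR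
  push Not at hR
  obtain ⟨p, hp, hpH, hdvd⟩ := hR
  have h1 : (it c α n).natAbs.Prime := Int.prime_iff_natAbs_prime.1 hP
  have h2 : p ∣ (it c α n).natAbs := Int.natCast_dvd.1 hdvd
  have h3 : p = (it c α n).natAbs := (Nat.prime_dvd_prime_iff_eq hp h1).1 h2
  show (it c α n).natAbs ≤ 2 * H + 1
  rw [← h3]
  exact (Nat.le_self_pow (by norm_num) p).trans hpH

open Classical in
/-- As `ODn.part_b`, with the modulus `M = (2H+1) ∏ p` (so that `L = M! ≥ 2H+1`) and the hypothesis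
for the sum over `n ∈ [M, M+L)` in place of the termwise bound. -/
theorem pb {d H : ℕ} (α : ℤ) (B : ℝ)
    (hB : ∀ M L : ℕ, 1 ≤ M → 2 * H + 1 ≤ L ^ 8 →
      ∑ n ∈ Ico M (M + L), (((box (d + 1) H).filter fun c => ∀ p : ℕ, p.Prime → p ^ 8 ≤ 2 * H + 1 →
        ¬ (p : ℤ) ∣ it c α n).card : ℝ) ≤ L * B) :
    ∑ c ∈ (box (d + 1) H).filter (fun c => Wand c α), ud (fun n => Prime (it c α n)) ≤ B := by
  set M := pb_M H with hM
  set L := M.factorial with hL
  have hM0 : 0 < M := pb_M_pos H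
  have hL0 : 0 < L := Nat.factorial_pos M
  have hL0' : (0 : ℝ) < L := by exact_mod_cast hL0
  have hL8 : 2 * H + 1 ≤ L ^ 8 :=
    (pb_M_le H).trans ((Nat.self_le_factorial M).trans (Nat.le_self_pow (by norm_num) L))
  have step1 : ∑ c ∈ (box (d + 1) H).filter (fun c => Wand c α), ud (fun n => Prime (it c α n))
      ≤ ∑ c ∈ (box (d + 1) H).filter (fun c => Wand c α),
        (((Ico M (M + L)).filter (pb_R H α c)).card : ℝ) / L := by
    refine Finset.sum_le_sum fun c hc => ?_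
    refine ud_le _ _ M L hL0 (pb_fin H α c (Finset.mem_filter.1 hc).2) ?_
    intro n hn
    exact pb_per H α c n hn
  have step2 : ∑ c ∈ (box (d + 1) H).filter (fun c => Wand c α),
        (((Ico M (M + L)).filter (pb_R H α c)).card : ℝ) / L
      ≤ ∑ c ∈ box (d + 1) H, (((Ico M (M + L)).filter (pb_R H α c)).card : ℝ) / L := by
    refine Finset.sum_le_sum_of_subset_of_nonneg (Finset.filter_subset _ _) fun c _ _ => ?_
    positivity
  have step3 : ∑ c ∈ box (d + 1) H, (((Ico M (M + L)).filter (pb_R H α c)).card : ℝ)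
      = ∑ n ∈ Ico M (M + L), (((box (d + 1) H).filter fun c => pb_R H α c n).card : ℝ) := by
    simp only [Finset.card_filter, Nat.cast_sum]
    rw [Finset.sum_comm]
  have step4 : ∑ n ∈ Ico M (M + L), (((box (d + 1) H).filter fun c => pb_R H α c n).card : ℝ)
      ≤ L * B := by
    have := hB M L hM0 hL8
    unfold pb_R
    exact this
  refine step1.trans (step2.trans ?_)
  rw [← Finset.sum_div, div_le_iff₀ hL0', step3, mul_comm B]
  exact step4
-- END pb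

end Pool.Agent.ODx
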